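import Pool.Agent.H8.Bic6

/-! Every bicompatible permutation statistic is equivalent to Des, Pk, Val or triv. -/

namespace Pool.Agent.Results.MP_7c1678_co.Bicompat

open Pool.Agent.H8.Bic

/-- A permutation: a finite sequence of distinct positive integers. -/
def IsPerm (π : List ℕ) : Prop := π.Nodup ∧ ∀ x ∈ π, 0 < x

/-- The entry `π_i` (positions start at 1). -/
def ent (π : List ℕ) (i : ℕ) : ℕ := π.getD (i - 1) 0

/-- Same length and same relative order. -/
def SameOrder (π σ : List ℕ) : Prop :=
  π.length = σ.length ∧ ∀ i j, 1 ≤ i → i ≤ π.length → 1 ≤ j → j ≤ π.length →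
    (ent π i < ent π j ↔ ent σ i < ent σ j)

/-- A permutation statistic (only its values on permutations matter). -/
def IsStat {α : Type*} (st : List ℕ → α) : Prop :=
  ∀ π σ, IsPerm π → IsPerm σ → SameOrder π σ → st π = st σ

/-- The set of shuffles of `π` and `σ`. -/
def Sh (π σ : List ℕ) : Set (List ℕ) :=
  {τ | IsPerm τ ∧ τ.length = π.length + σ.length ∧ π.Sublist τ ∧ σ.Sublist τ}

/-- The multiset of values on `Sh π σ` depends only on `st π`, `st σ` and the lengths. -/
def ShuffleCompat {α : Type*} (st : List ℕ → α) : Prop :=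
  ∀ π σ π' σ', IsPerm π → IsPerm σ → IsPerm π' → IsPerm σ' → π.Disjoint σ → π'.Disjoint σ' →
    π.length = π'.length → σ.length = σ'.length → st π = st π' → st σ = st σ' →
    ∀ a, {τ | τ ∈ Sh π σ ∧ st τ = a}.ncard = {τ | τ ∈ Sh π' σ' ∧ st τ = a}.ncard

/-- `st π = st σ` passes to the substrings in positions `i, ..., j`. -/
def SubstringCompat {α : Type*} (st : List ℕ → α) : Prop :=
  ∀ π σ, IsPerm π → IsPerm σ → π.length = σ.length → st π = st σ →
    ∀ i j, 1 ≤ i → i ≤ j → j ≤ π.length →
      st ((π.take j).drop (i - 1)) = st ((σ.take j).drop (i - 1))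

/-- Equivalent statistics. -/
def Equivalent {α β : Type*} (st : List ℕ → α) (st' : List ℕ → β) : Prop :=
  ∀ π σ, IsPerm π → IsPerm σ → π.length = σ.length → (st π = st σ ↔ st' π = st' σ)

def Des (π : List ℕ) : Set ℕ := {i | 1 ≤ i ∧ i + 1 ≤ π.length ∧ ent π (i + 1) < ent π i}

def Pk (π : List ℕ) : Set ℕ :=
  {i | 2 ≤ i ∧ i + 1 ≤ π.length ∧ ent π (i - 1) < ent π i ∧ ent π (i + 1) < ent π i}

def Val (π : List ℕ) : Set ℕ :=
  {i | 2 ≤ i ∧ i + 1 ≤ π.length ∧ ent π i < ent π (i - 1) ∧ ent π i < ent π (i + 1)}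

def triv (_ : List ℕ) : Unit := ()

section aux

variable {α : Type*} {st : List ℕ → α}

def rank (S : List ℚ) (x : ℚ) : ℕ := S.countP (· < x) + 1

theorem rank_mono (S : List ℚ) : StrictMonoOn (rank S) {x | x ∈ S} := by
  intro x hx y _ hxy
  simp only [rank, add_lt_add_iff_right]
  induction S with
  | nil => simp at hx
  | cons a S ih =>
    have hle : S.countP (· < x) ≤ S.countP (· < y) :=
      List.countP_mono_left fun z _ h => by simp at h ⊢; exact h.trans hxy
    clear ih
    simp only [List.countP_cons, decide_eq_true_eq]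
    rcases List.mem_cons.1 hx with rfl | hx
    · simp [hxy]; omega
    · have hlt : S.countP (· < x) < S.countP (· < y) := by
        obtain ⟨s, t, rfl⟩ := List.append_of_mem hx
        have h1 : s.countP (· < x) ≤ s.countP (· < y) :=
          List.countP_mono_left fun z _ h => by simp at h ⊢; exact h.trans hxy
        have h2 : t.countP (· < x) ≤ t.countP (· < y) :=
          List.countP_mono_left fun z _ h => by simp at h ⊢; exact h.trans hxy
        simp [List.countP_cons, hxy]; omega
      by_cases h : a < x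
      · simp [h, h.trans hxy, hlt]
      · simp only [h, if_false]; omega

theorem perm_map {γ : Type*} [LinearOrder γ] {w : List γ} (hn : w.Nodup) {g : γ → ℕ}
    (hg : StrictMonoOn g {x | x ∈ w}) (hp : ∀ x ∈ w, 0 < g x) : IsPerm (w.map g) := by
  refine ⟨List.Nodup.map_on (fun s hs t ht e => hg.injOn hs ht e) hn, ?_⟩
  intro x hx
  obtain ⟨y, hy, rfl⟩ := List.mem_map.1 hx
  exact hp y hy

theorem relabel (hst : IsStat st) {γ : Type*} [LinearOrder γ] {w : List γ} (hn : w.Nodup)
    {g g' : γ → ℕ} (hg : StrictMonoOn g {x | x ∈ w}) (hg' : StrictMonoOn g' {x | x ∈ w})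
    (hp : ∀ x ∈ w, 0 < g x) (hp' : ∀ x ∈ w, 0 < g' x) : st (w.map g) = st (w.map g') := by
  apply hst _ _ (perm_map hn hg hp) (perm_map hn hg' hp')
  refine ⟨by simp, fun i j hi hi' hj hj' => ?_⟩
  simp only [List.length_map] at hi' hj'
  have a : i - 1 < w.length := by omega
  have b : j - 1 < w.length := by omega
  simp only [ent, List.getD_eq_getElem?_getD, List.getElem?_map, List.getElem?_eq_getElem a,
    List.getElem?_eq_getElem b, Option.map_some, Option.getD_some]
  rw [hg.lt_iff_lt (List.getElem_mem a) (List.getElem_mem b),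
    hg'.lt_iff_lt (List.getElem_mem a) (List.getElem_mem b)]

/-- The statistic on rational words. -/
def stQ (st : List ℕ → α) (w : List ℚ) : α := st (w.map (rank w))

theorem stQ_eq (hst : IsStat st) {w S : List ℚ} (hn : w.Nodup) (hS : ∀ x ∈ w, x ∈ S) :
    st (w.map (rank S)) = stQ st w :=
  relabel hst hn ((rank_mono S).mono hS) (rank_mono w) (fun _ _ => Nat.succ_pos _)
    (fun _ _ => Nat.succ_pos _)

open Classical in
theorem ncard_eq {π σ : List ℕ} (h1 : IsPerm π) (h2 : IsPerm σ) (hd : π.Disjoint σ) (a : α) :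
    {τ | τ ∈ Sh π σ ∧ st τ = a}.ncard = ((sh π σ).map st).count a := by
  have hn : (π ++ σ).Nodup := List.nodup_append.2 ⟨h1.1, h2.1, fun x hx y hy e => hd hx (e ▸ hy)⟩
  have : {τ | τ ∈ Sh π σ ∧ st τ = a} = ↑(((sh π σ).filter fun τ => a = st τ).toFinset) := by
    ext τ
    simp only [Sh, Set.mem_setOf_eq, Finset.mem_coe, Multiset.mem_toFinset, Multiset.mem_filter]
    constructor
    · rintro ⟨⟨_, hl, hu, hv⟩, e⟩
      exact ⟨mem_sh_of_sublists hn hu hv hl, e.symm⟩
    · rintro ⟨hτ, e⟩
      refine ⟨⟨⟨(perm_of_mem_sh hτ).nodup_iff.2 hn, fun x hx => ?_⟩, length_of_mem_sh hτ,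
        sublist_of_mem_sh hτ⟩, e.symm⟩
      rcases List.mem_append.1 ((perm_of_mem_sh hτ).mem_iff.1 hx) with h | h
      · exact h1.2 x h
      · exact h2.2 x h
  rw [this, Set.ncard_coe_finset, Multiset.toFinset_card_of_nodup ((sh_nodup hn).filter _),
    Multiset.count_map]

theorem sh_transfer (hst : IsStat st) {u v : List ℚ} (hn : (u ++ v).Nodup) :
    IsPerm (u.map (rank (u ++ v))) ∧ IsPerm (v.map (rank (u ++ v))) ∧
    (u.map (rank (u ++ v))).Disjoint (v.map (rank (u ++ v))) ∧
    st (u.map (rank (u ++ v))) = stQ st u ∧ st (v.map (rank (u ++ v))) = stQ st v ∧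
    (sh (u.map (rank (u ++ v))) (v.map (rank (u ++ v)))).map st = (sh u v).map (stQ st) := by
  have hu : ∀ x ∈ u, x ∈ u ++ v := fun x hx => by simp [hx]
  have hv : ∀ x ∈ v, x ∈ u ++ v := fun x hx => by simp [hx]
  refine ⟨perm_map hn.of_append_left ((rank_mono _).mono hu) fun _ _ => Nat.succ_pos _,
    perm_map hn.of_append_right ((rank_mono _).mono hv) fun _ _ => Nat.succ_pos _, ?_,
    stQ_eq hst hn.of_append_left hu, stQ_eq hst hn.of_append_right hv, ?_⟩
  · have := (perm_map hn (rank_mono _) fun _ _ => Nat.succ_pos _).1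
    rw [List.map_append] at this
    exact List.disjoint_of_nodup_append this
  · rw [sh_map, Multiset.map_map]
    refine Multiset.map_congr rfl fun τ hτ => ?_
    exact stQ_eq hst ((perm_of_mem_sh hτ).nodup_iff.2 hn)
      fun x hx => (perm_of_mem_sh hτ).mem_iff.1 hx

theorem bi (hst : IsStat st) (h1 : ShuffleCompat st) (h2 : SubstringCompat st) : Bi (stQ st) where
  iso w g hg := by
    unfold stQ
    rw [List.map_map]
    congr 1
    refine List.map_congr_left fun x hx => ?_
    simp only [Function.comp, rank, List.countP_map, add_left_inj]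
    refine List.countP_congr fun y hy => ?_
    simp only [Function.comp, decide_eq_true_eq]
    exact hg.lt_iff_lt hy hx
  shuf u v u' v' n1 n2 l1 l2 e1 e2 := by
    classical
    obtain ⟨a1, a2, a3, a4, a5, a6⟩ := sh_transfer hst n1
    obtain ⟨b1, b2, b3, b4, b5, b6⟩ := sh_transfer hst n2
    rw [← a6, ← b6]
    ext a
    have := h1 _ _ _ _ a1 a2 b1 b2 a3 b3 (by simpa) (by simpa) (by rw [a4, b4, e1])
      (by rw [a5, b5, e2]) a
    rw [ncard_eq a1 a2 a3, ncard_eq b1 b2 b3] at this
    convert this
  sub w w' n1 n2 hl e k := by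
    have p1 := perm_map n1 (rank_mono w) fun _ _ => Nat.succ_pos _
    have p2 := perm_map n2 (rank_mono w') fun _ _ => Nat.succ_pos _
    have key := h2 _ _ p1 p2 (by simpa) e
    simp only [List.length_map] at key
    constructor
    · rw [← stQ_eq hst (S := w) (n1.sublist (List.take_sublist _ _))
          fun x hx => List.mem_of_mem_take hx,
        ← stQ_eq hst (S := w') (n2.sublist (List.take_sublist _ _))
          fun x hx => List.mem_of_mem_take hx]
      by_cases hk : w.length ≤ k
      · rw [List.take_of_length_le hk, List.take_of_length_le (hl ▸ hk)]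
        exact e
      · rcases Nat.eq_zero_or_pos k with rfl | hk0
        · simp
        · simpa [List.map_take] using key 1 k le_rfl hk0 (by omega)
    · rw [← stQ_eq hst (S := w) (n1.sublist (List.drop_sublist _ _))
          fun x hx => List.mem_of_mem_drop hx,
        ← stQ_eq hst (S := w') (n2.sublist (List.drop_sublist _ _))
          fun x hx => List.mem_of_mem_drop hx]
      by_cases hk : w.length ≤ k
      · rw [List.drop_of_length_le hk, List.drop_of_length_le (hl ▸ hk)]
        simp
      · have := key (k + 1) w.length (by omega) (by omega) le_rfl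
        rw [List.take_of_length_le (by simp), List.take_of_length_le (by simp [hl])] at this
        simpa [List.map_drop] using this

/-- A permutation as a rational word. -/
def toQ (π : List ℕ) : List ℚ := π.map (fun x : ℕ => (x : ℚ))

theorem stQ_toQ (hst : IsStat st) {π : List ℕ} (h : IsPerm π) : stQ st (toQ π) = st π := by
  unfold stQ
  conv_rhs => rw [← List.map_id π]
  conv_lhs => rw [toQ, List.map_map]
  refine relabel hst h.1 ?_ (fun _ _ _ _ h => h) (fun _ _ => Nat.succ_pos _) h.2
  intro x hx y hy hxy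
  exact rank_mono _ (List.mem_map_of_mem hx) (List.mem_map_of_mem hy) (Nat.cast_lt.2 hxy)

theorem list_eq_iff {s s' : List Bool} (d : Bool) (hl : s.length = s'.length) :
    s = s' ↔ ∀ i, (s.getD i d = !d ↔ s'.getD i d = !d) := by
  refine ⟨fun h => by simp [h], fun h => List.ext_getElem hl fun i h1 h2 => ?_⟩
  have := h i
  simp only [List.getD_eq_getElem?_getD, List.getElem?_eq_getElem h1, List.getElem?_eq_getElem h2,
    Option.getD_some] at this
  cases d <;> cases hs : s[i] <;> cases hs' : s'[i] <;> simp_all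

theorem des_getD (π : List ℕ) (i : ℕ) (d : Bool) (hi : i + 1 < π.length) :
    (des (toQ π)).getD i d = decide (π.getD (i + 1) 0 < π.getD i 0) := by
  induction π generalizing i with
  | nil => simp at hi
  | cons a π ih =>
    cases π with
    | nil => simp at hi
    | cons b t =>
      cases i with
      | zero => simp [toQ]
      | succ i =>
        have := ih i (by simpa using hi)
        simpa [toQ] using this

theorem canon_getD (s : List Bool) (i : ℕ) :
    (canon s).getD i true = false ↔
      i + 1 < s.length ∧ s.getD i false = false ∧ s.getD (i + 1) false = true := by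
  induction s generalizing i with
  | nil => simp [canon]
  | cons x s ih =>
    cases s with
    | nil => cases i <;> simp [canon]
    | cons y t =>
      cases i with
      | zero => simp [canon]
      | succ i => simpa [canon] using ih i

theorem getD_ne {π : List ℕ} (h : IsPerm π) {i : ℕ} (hi : i + 1 < π.length) :
    π.getD (i + 1) 0 ≠ π.getD i 0 := by
  simp only [List.getD_eq_getElem?_getD, List.getElem?_eq_getElem hi,
    List.getElem?_eq_getElem (show i < π.length by omega), Option.getD_some]
  intro e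
  have := (List.Nodup.getElem_inj_iff h.1).1 e
  omega

theorem set_eq_iff {A B : Set ℕ} (k : ℕ) (hA : ∀ i ∈ A, k ≤ i) (hB : ∀ i ∈ B, k ≤ i) :
    A = B ↔ ∀ i, (i + k ∈ A ↔ i + k ∈ B) := by
  refine ⟨fun h => by simp [h], fun h => Set.ext fun i => ?_⟩
  by_cases hi : k ≤ i
  · obtain ⟨j, rfl⟩ := Nat.exists_eq_add_of_le' hi
    exact h j
  · exact ⟨fun h => absurd (hA i h) hi, fun h => absurd (hB i h) hi⟩

theorem len_des (π : List ℕ) : (des (toQ π)).length = π.length - 1 := by
  simp [length_des', toQ]

theorem mem_Des (π : List ℕ) (i : ℕ) : i + 1 ∈ Des π ↔ (des (toQ π)).getD i false = !false := by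
  by_cases hi : i + 1 < π.length
  · rw [des_getD π i false hi]
    simp only [Des, ent, Set.mem_setOf_eq, Nat.add_sub_cancel, Bool.not_false, decide_eq_true_eq]
    exact ⟨fun h => h.2.2, fun h => ⟨by omega, hi, h⟩⟩
  · rw [List.getD_eq_default _ _ (by rw [len_des]; omega)]
    simp only [Des, Set.mem_setOf_eq]
    exact ⟨fun h => absurd h.2.1 hi, fun h => by simp at h⟩

theorem mem_Pk {π : List ℕ} (h : IsPerm π) (i : ℕ) :
    i + 2 ∈ Pk π ↔ (canon (des (toQ π))).getD i true = !true := by
  rw [Bool.not_true, canon_getD, len_des]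
  by_cases hi : i + 2 < π.length
  · rw [des_getD π i false (by omega), des_getD π (i + 1) false hi]
    have := getD_ne h (i := i) (by omega)
    simp only [Pk, ent, Set.mem_setOf_eq, decide_eq_true_eq, decide_eq_false_iff_not,
      show i + 1 - 1 = i by omega, show i + 2 - 1 = i + 1 by omega,
      show i + 2 + 1 - 1 = i + 1 + 1 by omega]
    omega
  · simp only [Pk, Set.mem_setOf_eq]
    omega

theorem mem_Val {π : List ℕ} (h : IsPerm π) (i : ℕ) :
    i + 2 ∈ Val π ↔ (canon ((des (toQ π)).map not)).getD i true = !true := by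
  rw [Bool.not_true, canon_getD, List.length_map, len_des]
  by_cases hi : i + 2 < π.length
  · have e : ∀ j, ((des (toQ π)).map not).getD j false = !((des (toQ π)).getD j true) :=
      fun j => List.getD_map _ true not
    rw [e, e, des_getD π i true (by omega), des_getD π (i + 1) true hi]
    have := getD_ne h (i := i + 1) (by omega)
    simp only [Val, ent, Set.mem_setOf_eq, Bool.not_eq_false', Bool.not_eq_true',
      decide_eq_true_eq, decide_eq_false_iff_not,
      show i + 1 - 1 = i by omega, show i + 2 - 1 = i + 1 by omega,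
      show i + 2 + 1 - 1 = i + 1 + 1 by omega]
    omega
  · simp only [Val, Set.mem_setOf_eq]
    omega

theorem toQ_nodup {π : List ℕ} (h : IsPerm π) : (toQ π).Nodup := h.1.map Nat.cast_injective

end aux

theorem result {α : Type*} (st : List ℕ → α) (hst : IsStat st) (h1 : ShuffleCompat st)
    (h2 : SubstringCompat st) :
    Equivalent st Des ∨ Equivalent st Pk ∨ Equivalent st Val ∨ Equivalent st triv := by
  rcases (bi hst h1 h2).classify with h | h | h | h
  · refine Or.inl fun π σ hπ hσ hl => ?_
    rw [← stQ_toQ hst hπ, ← stQ_toQ hst hσ, h _ _ (toQ_nodup hπ) (toQ_nodup hσ) (by simp [toQ, hl]),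
      set_eq_iff 1 (fun i hi => hi.1) (fun i hi => hi.1),
      list_eq_iff false (by simp [len_des, hl])]
    simp only [mem_Des]
  · refine Or.inr (Or.inl fun π σ hπ hσ hl => ?_)
    rw [← stQ_toQ hst hπ, ← stQ_toQ hst hσ, h _ _ (toQ_nodup hπ) (toQ_nodup hσ) (by simp [toQ, hl]),
      set_eq_iff 2 (fun i hi => hi.1) (fun i hi => hi.1),
      list_eq_iff true (by simp [length_canon, len_des, hl])]
    simp only [mem_Pk hπ, mem_Pk hσ]
  · refine Or.inr (Or.inr (Or.inl fun π σ hπ hσ hl => ?_))
    rw [← stQ_toQ hst hπ, ← stQ_toQ hst hσ, h _ _ (toQ_nodup hπ) (toQ_nodup hσ) (by simp [toQ, hl]),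
      set_eq_iff 2 (fun i hi => hi.1) (fun i hi => hi.1),
      list_eq_iff true (by simp [length_canon, len_des, hl])]
    simp only [mem_Val hπ, mem_Val hσ]
  · refine Or.inr (Or.inr (Or.inr fun π σ hπ hσ hl => ?_))
    rw [← stQ_toQ hst hπ, ← stQ_toQ hst hσ]
    simpa using h _ _ (toQ_nodup hπ) (toQ_nodup hσ) (by simp [toQ, hl])

end Pool.Agent.Results.MP_7c1678_co.Bicompat
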